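import Pool.Agent.Y503.HC.FinQuot
import Pool.Agent.Y503.HC.Emb
import Pool.Agent.H839R2.Geo.Embed

/-! The manifold `S³ × S³ × S³`, its metric, and the isometries given by triples of orthogonal
maps. -/

set_option autoImplicit false

open scoped Manifold ContDiff Topology ENNReal
open Set Bundle Bornology Filter Manifold Module
open Pool.Agent.Y503.HC

noncomputable section

namespace Pool.Agent.Helper760_TN

/-- Euclidean four-space -/
abbrev V : Type := EuclideanSpace ℝ (Fin 4)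

instance factV : Fact (finrank ℝ V = 3 + 1) := ⟨by simp⟩

/-- the unit sphere of `ℝ⁴` -/
abbrev S : Type := Metric.sphere (0 : V) 1

/-- Euclidean three-space, the model of `S³` -/
abbrev E3 : Type := EuclideanSpace ℝ (Fin 3)

/-- the model vector space of `S³ × S³ × S³` -/
abbrev EE : Type := E3 × (E3 × E3)

/-- `S³ × S³ × S³` -/
abbrev MM : Type := S × (S × S)

/-- the model space as a product of model spaces -/
abbrev HH : Type := ModelProd E3 (ModelProd E3 E3)

/-- the model with corners -/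
abbrev II : ModelWithCorners ℝ EE HH := (𝓡 3).prod ((𝓡 3).prod (𝓡 3))

/-- the ambient vector space -/
abbrev W : Type := V × (V × V)

/-- the inclusion -/
def inc (x : MM) : W := ((x.1 : V), ((x.2.1 : V), (x.2.2 : V)))

lemma inc_smooth : ContMDiff II 𝓘(ℝ, W) ∞ inc := by
  apply ContMDiff.prodMk_space
  · exact (contMDiff_coe_sphere (m := ∞)).comp contMDiff_fst
  · apply ContMDiff.prodMk_space
    · exact (contMDiff_coe_sphere (m := ∞)).comp (contMDiff_fst.comp contMDiff_snd)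
    · exact (contMDiff_coe_sphere (m := ∞)).comp (contMDiff_snd.comp contMDiff_snd)

lemma Dm_comp {W W' : Type} [NormedAddCommGroup W] [NormedSpace ℝ W] [NormedAddCommGroup W']
    [NormedSpace ℝ W'] {ι : MM → W} {r : W → W'} {x : MM}
    (h1 : MDifferentiableAt II 𝓘(ℝ, W) ι x) (h2 : DifferentiableAt ℝ r (ι x)) (w : EE) :
    Dm II (r ∘ ι) x w = fderiv ℝ r (ι x) (Dm II ι x w) := by
  have h3 := mfderiv_comp x h2.mdifferentiableAt h1
  have h4 : Dm II (r ∘ ι) x w = Dm 𝓘(ℝ, W) r (ι x) (Dm II ι x w) :=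
    congrArg (fun L : EE →L[ℝ] W' => L w) h3
  rw [h4]
  unfold Dm
  rw [mfderiv_eq_fderiv]

lemma inc_inj (x : MM) : Function.Injective (Dm II inc x) := by
  have d0 : MDifferentiableAt II 𝓘(ℝ, W) inc x := (inc_smooth x).mdifferentiableAt (by simp)
  intro u v huv
  have e1 : ∀ w : EE, (Dm II inc x w).1 =
      (mfderiv (𝓡 3) 𝓘(ℝ, V) ((↑) : S → V) x.1 : _ →L[ℝ] V) w.1 := by
    intro w
    have h1 := Dm_comp (r := Prod.fst) d0 differentiableAt_fst w
    rw [fderiv_fst] at h1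
    have h2 : (Prod.fst ∘ inc : MM → V) = ((↑) : S → V) ∘ Prod.fst := rfl
    have d1 : MDifferentiableAt (𝓡 3) 𝓘(ℝ, V) ((↑) : S → V) x.1 :=
      (contMDiff_coe_sphere (m := ∞) x.1).mdifferentiableAt (by simp)
    have h3 := mfderiv_comp x d1
      (mdifferentiableAt_fst (I := 𝓡 3) (I' := (𝓡 3).prod (𝓡 3)) (x := x))
    rw [h2] at h1
    have h4 := congrArg (fun L : EE →L[ℝ] V => L w) h3
    rw [mfderiv_fst] at h4
    exact h1.symm.trans h4
  have e2 : ∀ w : EE, (Dm II inc x w).2.1 =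
      (mfderiv (𝓡 3) 𝓘(ℝ, V) ((↑) : S → V) x.2.1 : _ →L[ℝ] V) w.2.1 := by
    intro w
    have h1 := Dm_comp (r := fun q : W => q.2.1) d0 (by fun_prop) w
    have h2 : ((fun q : W => q.2.1) ∘ inc : MM → V) =
      (((↑) : S → V) ∘ Prod.fst) ∘ (Prod.snd : MM → S × S) := rfl
    have d1 : MDifferentiableAt (𝓡 3) 𝓘(ℝ, V) ((↑) : S → V) x.2.1 :=
      (contMDiff_coe_sphere (m := ∞) x.2.1).mdifferentiableAt (by simp)
    have d2 : MDifferentiableAt ((𝓡 3).prod (𝓡 3)) 𝓘(ℝ, V) (((↑) : S → V) ∘ Prod.fst) x.2 :=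
      d1.comp x.2 mdifferentiableAt_fst
    have h3 := mfderiv_comp x d2
      (mdifferentiableAt_snd (I := 𝓡 3) (I' := (𝓡 3).prod (𝓡 3)) (x := x))
    have h3' := mfderiv_comp x.2 d1
      (mdifferentiableAt_fst (I := 𝓡 3) (I' := 𝓡 3) (x := x.2))
    rw [h2] at h1
    have h4 := congrArg (fun L : EE →L[ℝ] V => L w) h3
    rw [mfderiv_snd, h3', mfderiv_fst] at h4
    have h5 : fderiv ℝ (fun q : W => q.2.1) (inc x) =
        (ContinuousLinearMap.fst ℝ V V).comp (ContinuousLinearMap.snd ℝ V (V × V)) :=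
      ((ContinuousLinearMap.fst ℝ V V).comp (ContinuousLinearMap.snd ℝ V (V × V))).hasFDerivAt.fderiv
    rw [h5] at h1
    exact h1.symm.trans h4
  have e3 : ∀ w : EE, (Dm II inc x w).2.2 =
      (mfderiv (𝓡 3) 𝓘(ℝ, V) ((↑) : S → V) x.2.2 : _ →L[ℝ] V) w.2.2 := by
    intro w
    have h1 := Dm_comp (r := fun q : W => q.2.2) d0 (by fun_prop) w
    have h2 : ((fun q : W => q.2.2) ∘ inc : MM → V) =
      (((↑) : S → V) ∘ Prod.snd) ∘ (Prod.snd : MM → S × S) := rfl
    have d1 : MDifferentiableAt (𝓡 3) 𝓘(ℝ, V) ((↑) : S → V) x.2.2 :=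
      (contMDiff_coe_sphere (m := ∞) x.2.2).mdifferentiableAt (by simp)
    have d2 : MDifferentiableAt ((𝓡 3).prod (𝓡 3)) 𝓘(ℝ, V) (((↑) : S → V) ∘ Prod.snd) x.2 :=
      d1.comp x.2 mdifferentiableAt_snd
    have h3 := mfderiv_comp x d2
      (mdifferentiableAt_snd (I := 𝓡 3) (I' := (𝓡 3).prod (𝓡 3)) (x := x))
    have h3' := mfderiv_comp x.2 d1
      (mdifferentiableAt_snd (I := 𝓡 3) (I' := 𝓡 3) (x := x.2))
    rw [h2] at h1
    have h4 := congrArg (fun L : EE →L[ℝ] V => L w) h3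
    rw [mfderiv_snd, h3', mfderiv_snd] at h4
    have h5 : fderiv ℝ (fun q : W => q.2.2) (inc x) =
        (ContinuousLinearMap.snd ℝ V V).comp (ContinuousLinearMap.snd ℝ V (V × V)) :=
      ((ContinuousLinearMap.snd ℝ V V).comp (ContinuousLinearMap.snd ℝ V (V × V))).hasFDerivAt.fderiv
    rw [h5] at h1
    exact h1.symm.trans h4
  have i1 := mfderiv_coe_sphere_injective (n := 3) x.1
  have i2 := mfderiv_coe_sphere_injective (n := 3) x.2.1
  have i3 := mfderiv_coe_sphere_injective (n := 3) x.2.2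
  have h1 : (mfderiv (𝓡 3) 𝓘(ℝ, V) ((↑) : S → V) x.1 : _ →L[ℝ] V) u.1 =
      (mfderiv (𝓡 3) 𝓘(ℝ, V) ((↑) : S → V) x.1 : _ →L[ℝ] V) v.1 := by
    rw [← e1, ← e1, huv]
  have h2 : (mfderiv (𝓡 3) 𝓘(ℝ, V) ((↑) : S → V) x.2.1 : _ →L[ℝ] V) u.2.1 =
      (mfderiv (𝓡 3) 𝓘(ℝ, V) ((↑) : S → V) x.2.1 : _ →L[ℝ] V) v.2.1 := by
    rw [← e2, ← e2, huv]
  have h3 : (mfderiv (𝓡 3) 𝓘(ℝ, V) ((↑) : S → V) x.2.2 : _ →L[ℝ] V) u.2.2 =
      (mfderiv (𝓡 3) 𝓘(ℝ, V) ((↑) : S → V) x.2.2 : _ →L[ℝ] V) v.2.2 := by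
    rw [← e3, ← e3, huv]
  exact Prod.ext (i1 h1) (Prod.ext (i2 h2) (i3 h3))

/-- the Euclidean form on the ambient space -/
def BW : W →L[ℝ] W →L[ℝ] ℝ :=
  (innerSL ℝ).bilinearComp (ContinuousLinearMap.fst ℝ V (V × V))
      (ContinuousLinearMap.fst ℝ V (V × V)) +
    ((innerSL ℝ).bilinearComp
      ((ContinuousLinearMap.fst ℝ V V).comp (ContinuousLinearMap.snd ℝ V (V × V)))
      ((ContinuousLinearMap.fst ℝ V V).comp (ContinuousLinearMap.snd ℝ V (V × V))) +
    (innerSL ℝ).bilinearComp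
      ((ContinuousLinearMap.snd ℝ V V).comp (ContinuousLinearMap.snd ℝ V (V × V)))
      ((ContinuousLinearMap.snd ℝ V V).comp (ContinuousLinearMap.snd ℝ V (V × V))))

lemma BW_apply (a b : W) : BW a b = inner ℝ a.1 b.1 + (inner ℝ a.2.1 b.2.1 + inner ℝ a.2.2 b.2.2) :=
  rfl

lemma BW_pos {v : W} (hv : v ≠ 0) : 0 < BW v v := by
  rw [BW_apply]
  have h1 := real_inner_self_nonneg (x := v.1)
  have h2 := real_inner_self_nonneg (x := v.2.1)
  have h3 := real_inner_self_nonneg (x := v.2.2)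
  by_contra hcon
  apply hv
  have e1 : inner ℝ v.1 v.1 = (0 : ℝ) := by linarith
  have e2 : inner ℝ v.2.1 v.2.1 = (0 : ℝ) := by linarith
  have e3 : inner ℝ v.2.2 v.2.2 = (0 : ℝ) := by linarith
  rw [inner_self_eq_zero] at e1 e2 e3
  exact Prod.ext e1 (Prod.ext e2 e3)

/-- the product metric -/
def gM : Metric II MM :=
  Pool.Agent.H839R2.Geo.embMetric inc inc_smooth inc_inj (fun _ => BW)
    (fun _ => contDiffAt_const) (fun _ v w => by
      rw [BW_apply, BW_apply, real_inner_comm, real_inner_comm (w.2.1), real_inner_comm (w.2.2)])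
    (fun _ v hv => BW_pos hv)

lemma gM_inner (x : MM) (v w : TangentSpace II x) :
    gM.inner x v w = BW (Dm II inc x v) (Dm II inc x w) := rfl

/-- the orthogonal maps of `ℝ⁴` -/
abbrev O : Type := V ≃ₗᵢ[ℝ] V

/-- an orthogonal map acts on the sphere -/
def rot (T : O) (x : S) : S := ⟨T x, by
  rw [mem_sphere_zero_iff_norm, T.norm_map]
  exact mem_sphere_zero_iff_norm.1 x.2⟩

@[simp] lemma rot_coe (T : O) (x : S) : ((rot T x : S) : V) = T x := rfl

lemma rot_smooth (T : O) : ContMDiff (𝓡 3) (𝓡 3) ∞ (rot T) := by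
  have h : ContMDiff (𝓡 3) 𝓘(ℝ, V) ∞ (fun x : S => T (x : V)) :=
    T.toContinuousLinearEquiv.contDiff.contMDiff.comp (contMDiff_coe_sphere (m := ∞))
  exact h.codRestrict_sphere (fun x => (rot T x).2)

/-- a triple of orthogonal maps acts on the product -/
def act (T : O × (O × O)) (x : MM) : MM := (rot T.1 x.1, (rot T.2.1 x.2.1, rot T.2.2 x.2.2))

lemma act_smooth (T : O × (O × O)) : ContMDiff II II ∞ (act T) := by
  apply ContMDiff.prodMk
  · exact (rot_smooth T.1).comp contMDiff_fst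
  · apply ContMDiff.prodMk
    · exact (rot_smooth T.2.1).comp (contMDiff_fst.comp contMDiff_snd)
    · exact (rot_smooth T.2.2).comp (contMDiff_snd.comp contMDiff_snd)

lemma rot_mul (T T' : O) (x : S) : rot (T * T') x = rot T (rot T' x) := rfl

lemma rot_one (x : S) : rot 1 x = x := rfl

lemma act_mul (T T' : O × (O × O)) (x : MM) : act (T * T') x = act T (act T' x) := rfl

lemma act_one (x : MM) : act 1 x = x := rfl

/-- the diffeomorphism -/
def actD (T : O × (O × O)) : Diffeomorph II II MM MM ∞ where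
  toFun := act T
  invFun := act T⁻¹
  left_inv x := by rw [← act_mul, inv_mul_cancel, act_one]
  right_inv x := by rw [← act_mul, mul_inv_cancel, act_one]
  contMDiff_toFun := act_smooth T
  contMDiff_invFun := act_smooth T⁻¹

/-- the linear map of the ambient space -/
def lin (T : O × (O × O)) : W →L[ℝ] W :=
  ((T.1.toContinuousLinearEquiv : V →L[ℝ] V)).prodMap
    ((T.2.1.toContinuousLinearEquiv : V →L[ℝ] V).prodMap
      (T.2.2.toContinuousLinearEquiv : V →L[ℝ] V))

lemma lin_apply (T : O × (O × O)) (x : W) : lin T x = (T.1 x.1, (T.2.1 x.2.1, T.2.2 x.2.2)) := rfl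

lemma BW_lin (T : O × (O × O)) (x y : W) : BW (lin T x) (lin T y) = BW x y := by
  rw [BW_apply, BW_apply, lin_apply, lin_apply]
  simp only [LinearIsometryEquiv.inner_map_map]

lemma Dm_act (T : O × (O × O)) (x : MM) (v : EE) :
    Dm II inc (act T x) (mfderiv II II (act T) x v : EE) = lin T (Dm II inc x v) := by
  have d1 : MDifferentiableAt II 𝓘(ℝ, W) inc (act T x) :=
    (inc_smooth _).mdifferentiableAt (by simp)
  have d2 : MDifferentiableAt II II (act T) x := (act_smooth T x).mdifferentiableAt (by simp)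
  have d3 : MDifferentiableAt II 𝓘(ℝ, W) inc x := (inc_smooth _).mdifferentiableAt (by simp)
  have e1 := mfderiv_comp x d1 d2
  have e2 : inc ∘ act T = lin T ∘ inc := rfl
  have e3 := Dm_comp (r := lin T) d3 (lin T).differentiableAt v
  have e4 : Dm II (inc ∘ act T) x v =
    Dm II inc (act T x) (mfderiv II II (act T) x v : EE) :=
    congrArg (fun L : EE →L[ℝ] W => L v) e1
  rw [← e4, e2, e3, (lin T).fderiv]

lemma actD_isometry (T : O × (O × O)) : IsIsometry gM (actD T) := by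
  intro x v w
  have h1 : (gM.inner (act T x) : EE →L[ℝ] EE →L[ℝ] ℝ)
      (mfderiv II II (act T) x v) (mfderiv II II (act T) x w) =
      BW (Dm II inc (act T x) (mfderiv II II (act T) x v : EE))
        (Dm II inc (act T x) (mfderiv II II (act T) x w : EE)) := rfl
  refine Eq.trans h1 ?_
  refine Eq.trans (congrArg₂ (fun a b : W => BW a b) (Dm_act T x v) (Dm_act T x w)) ?_
  exact BW_lin T _ _

end Pool.Agent.Helper760_TN
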