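import Pool.Agent.Helper760_TN.Sym

/-! An antipodal set with 8 points, and two commuting isometric involutions with exactly 32 common
fixed points. -/

set_option autoImplicit false

open scoped Topology RealInnerProductSpace
open Set Filter Module
open Pool.Agent.Helper381

noncomputable section

namespace Pool.Agent.Helper760_TN

/-- the points `e_a` of the sphere -/
def pt (a : Fin 4) : S := ⟨EuclideanSpace.single a 1, by simp⟩

lemma pt_coe (a : Fin 4) : ((pt a : S) : V) = EuclideanSpace.single a 1 := rfl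

lemma perp_pt {a b : Fin 4} (h : a ≠ b) (ε δ : ℤˣ) :
    Perp (rot (sg ε) (pt a)) (rot (sg δ) (pt b)) := by
  unfold Perp
  rw [rot_sg_coe, rot_sg_coe, inner_smul_left, inner_smul_right, pt_coe, pt_coe,
    EuclideanSpace.inner_single_left]
  simp [h]

lemma par_pt_iff {a b : Fin 4} {ε δ : ℤˣ} :
    Par (rot (sg ε) (pt a)) (rot (sg δ) (pt b)) ↔ a = b := by
  constructor
  · intro h
    by_contra hne
    exact not_perp_of_par h (perp_pt hne ε δ)
  · rintro rfl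
    exact ⟨δ * ε, by rw [← rot_sg_mul, mul_assoc, Int.units_mul_self, mul_one]⟩

lemma rot_sg_inj {ε δ : ℤˣ} {x : S} (h : rot (sg ε) x = rot (sg δ) x) : ε = δ := by
  have h1 : rot (sg (δ * ε)) x = x := by
    rw [rot_sg_mul, h, ← rot_sg_mul, Int.units_mul_self, sg_one, rot_one]
  have h2 := rot_sg_eq h1
  have h3 : δ * (δ * ε) = δ := by rw [h2, mul_one]
  rw [← mul_assoc, Int.units_mul_self, one_mul] at h3
  exact h3

/-- the point `(s e_a, e_b, e_c)` -/
def P (s : ℤˣ) (a b c : Fin 4) : MM := (rot (sg s) (pt a), (rot (sg 1) (pt b), rot (sg 1) (pt c)))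

/-! ### An antipodal set -/

/-- the binary words of length three with an even number of ones -/
def word : Fin 4 → Fin 4 × (Fin 4 × Fin 4) := ![(0, (0, 0)), (0, (1, 1)), (1, (0, 1)), (1, (1, 0))]

lemma word_inj : Function.Injective word := by decide

lemma word_rel (i j : Fin 4) : i = j ∨
    ((word i).1 = (word j).1 ∧ (word i).2.1 ≠ (word j).2.1 ∧ (word i).2.2 ≠ (word j).2.2) ∨
    ((word i).1 ≠ (word j).1 ∧ (word i).2.1 = (word j).2.1 ∧ (word i).2.2 ≠ (word j).2.2) ∨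
    ((word i).1 ≠ (word j).1 ∧ (word i).2.1 ≠ (word j).2.1 ∧ (word i).2.2 = (word j).2.2) := by
  revert i j; decide

section Model

variable {N : Type} [MetricSpace N] {p : MM → N} (hp : IsModel N p)

include hp

lemma P_inj {s s' : ℤˣ} {a b c a' b' c' : Fin 4} (h : p (P s a b c) = p (P s' a' b' c')) :
    s = s' ∧ a = a' ∧ b = b' ∧ c = c' := by
  have h' := same_of_eq hp h
  have e1 : a = a' := par_pt_iff.1 h'.1
  have e2 : b = b' := par_pt_iff.1 h'.2.1
  have e3 : c = c' := par_pt_iff.1 h'.2.2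
  subst e1 e2 e3
  refine ⟨?_, rfl, rfl, rfl⟩
  rw [hp.fib] at h
  obtain ⟨γ, hγ⟩ := h
  have h1 : rot (sg γ.1) (rot (sg s) (pt a)) = rot (sg s') (pt a) := congrArg Prod.fst hγ
  have h2 : rot (sg γ.2) (rot (sg 1) (pt b)) = rot (sg 1) (pt b) :=
    congrArg (fun q : MM => q.2.1) hγ
  have h3 : rot (sg (γ.1 * γ.2)) (rot (sg 1) (pt c)) = rot (sg 1) (pt c) :=
    congrArg (fun q : MM => q.2.2) hγ
  have f2 := rot_sg_eq h2
  have f3 := rot_sg_eq h3
  rw [f2, mul_one] at f3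
  rw [f3, ← rot_sg_mul, one_mul] at h1
  exact rot_sg_inj h1

/-- the eight points -/
def Q (p : MM → N) (q : Fin 4 × ℤˣ) : N :=
  p (P q.2 (word q.1).1 (word q.1).2.1 (word q.1).2.2)

lemma Q_inj : Function.Injective (Q p) := by
  rintro ⟨i, s⟩ ⟨j, s'⟩ h
  obtain ⟨h1, h2, h3, h4⟩ := P_inj hp h
  have h5 : word i = word j := Prod.ext h2 (Prod.ext h3 h4)
  exact Prod.ext (word_inj h5) h1

lemma isAntipodal_Q : IsAntipodal (range (Q p)) := by
  rintro _ ⟨⟨i, s⟩, rfl⟩ _ ⟨⟨j, s'⟩, rfl⟩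
  set v : MM := P s (word i).1 (word i).2.1 (word i).2.2 with hv
  set w : MM := P s' (word j).1 (word j).2.1 (word j).2.2 with hw
  obtain ⟨f, hf⟩ := hp.iso (rf3 v)
  refine ⟨f, isSymmetryAt hp v f hf, ?_⟩
  show f (p w) = p w
  rw [hf, eq_comm, hp.fib]
  rcases word_rel i j with h | h | h | h
  · subst h
    exact fixed_of_same ⟨par_pt_iff.2 rfl, par_pt_iff.2 rfl, par_pt_iff.2 rfl⟩
  · exact fixed_of_diff (Or.inl ⟨par_pt_iff.2 h.1, perp_pt h.2.1 _ _, perp_pt h.2.2 _ _⟩)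
  · exact fixed_of_diff (Or.inr (Or.inl ⟨perp_pt h.1 _ _, par_pt_iff.2 h.2.1, perp_pt h.2.2 _ _⟩))
  · exact fixed_of_diff (Or.inr (Or.inr ⟨perp_pt h.1 _ _, perp_pt h.2.1 _ _, par_pt_iff.2 h.2.2⟩))

theorem le_twoNumber : 8 ≤ twoNumber N := by
  have h1 : (range (Q p)).encard = 8 := by
    rw [← Set.image_univ, (Q_inj hp).injOn.encard_image, Set.encard_univ, ENat.card_eq_coe_fintype_card]
    simp
  rw [← h1]
  exact le_iSup (fun A : {A : Set N // IsAntipodal A} => A.1.encard) ⟨_, isAntipodal_Q hp⟩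

end Model

/-! ### Two involutions -/

/-- the diagonal orthogonal maps -/
def dg (χ : Fin 4 → ℤˣ) : O :=
  LinearIsometryEquiv.piLpCongrRight 2
    (fun i => if χ i = 1 then LinearIsometryEquiv.refl ℝ ℝ else LinearIsometryEquiv.neg ℝ)

lemma dg_apply (χ : Fin 4 → ℤˣ) (x : V) (i : Fin 4) : dg χ x i = ((χ i : ℤ) : ℝ) * x i := by
  show (if χ i = 1 then LinearIsometryEquiv.refl ℝ ℝ else LinearIsometryEquiv.neg ℝ) (x i) = _
  rcases Int.units_eq_one_or (χ i) with h | h <;> simp [h]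

lemma dg_dg (χ : Fin 4 → ℤˣ) (x : V) : dg χ (dg χ x) = x := by
  ext i
  rw [dg_apply, dg_apply, ← mul_assoc, sign_sq, one_mul]

lemma dg_comm (χ χ' : Fin 4 → ℤˣ) (x : V) : dg χ (dg χ' x) = dg χ' (dg χ x) := by
  ext i
  rw [dg_apply, dg_apply, dg_apply, dg_apply]
  ring

lemma dg_pt (χ : Fin 4 → ℤˣ) (ε : ℤˣ) (a : Fin 4) :
    rot (dg χ) (rot (sg ε) (pt a)) = rot (sg (χ a)) (rot (sg ε) (pt a)) := by
  apply Subtype.ext
  ext i
  rw [rot_coe, rot_sg_coe, rot_sg_coe, rot_sg_coe, dg_apply, pt_coe]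
  by_cases h : i = a
  · subst h; simp
  · simp [h]

/-- the first character -/
def χ₁ : Fin 4 → ℤˣ := ![1, 1, -1, -1]
/-- the second character -/
def χ₂ : Fin 4 → ℤˣ := ![1, -1, 1, -1]

lemma χ_inj (i j : Fin 4) (h1 : χ₁ i = χ₁ j) (h2 : χ₂ i = χ₂ j) : i = j := by
  revert i j; decide

/-- the group law of the Klein four-group -/
def xor4 (i j : Fin 4) : Fin 4 := ![![0, 1, 2, 3], ![1, 0, 3, 2], ![2, 3, 0, 1], ![3, 2, 1, 0]] i j

lemma χ₁_xor (i j : Fin 4) : χ₁ (xor4 i j) = χ₁ i * χ₁ j := by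
  revert i j; decide

lemma χ₂_xor (i j : Fin 4) : χ₂ (xor4 i j) = χ₂ i * χ₂ j := by
  revert i j; decide

/-- a point of the sphere which is an eigenvector of both diagonal maps is a signed basis vector -/
lemma eigen {x : S} {ε δ : ℤˣ} (h1 : rot (dg χ₁) x = rot (sg ε) x)
    (h2 : rot (dg χ₂) x = rot (sg δ) x) : ∃ (s : ℤˣ) (a : Fin 4), x = rot (sg s) (pt a) := by
  have e1 : ∀ i, ((χ₁ i : ℤ) : ℝ) * (x : V) i = ((ε : ℤ) : ℝ) * (x : V) i := by
    intro i
    have h : dg χ₁ (x : V) = ((ε : ℤ) : ℝ) • (x : V) := by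
      rw [← rot_sg_coe, ← h1]; rfl
    rw [← dg_apply, h]; rfl
  have e2 : ∀ i, ((χ₂ i : ℤ) : ℝ) * (x : V) i = ((δ : ℤ) : ℝ) * (x : V) i := by
    intro i
    have h : dg χ₂ (x : V) = ((δ : ℤ) : ℝ) • (x : V) := by
      rw [← rot_sg_coe, ← h2]; rfl
    rw [← dg_apply, h]; rfl
  have f1 : ∀ i, (x : V) i ≠ 0 → χ₁ i = ε := by
    intro i hi
    have h := mul_right_cancel₀ hi (e1 i)
    exact Units.ext (Int.cast_injective (α := ℝ) h)
  have f2 : ∀ i, (x : V) i ≠ 0 → χ₂ i = δ := by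
    intro i hi
    have h := mul_right_cancel₀ hi (e2 i)
    exact Units.ext (Int.cast_injective (α := ℝ) h)
  obtain ⟨a, ha⟩ : ∃ a, (x : V) a ≠ 0 := by
    by_contra hcon
    push Not at hcon
    exact ne_zero_S x (by ext i; simpa using hcon i)
  have hsupp : ∀ i, i ≠ a → (x : V) i = 0 := by
    intro i hi
    by_contra hne
    exact hi (χ_inj i a ((f1 i hne).trans (f1 a ha).symm) ((f2 i hne).trans (f2 a ha).symm))
  have hx : (x : V) = EuclideanSpace.single a ((x : V) a) := by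
    ext i
    by_cases h : i = a
    · subst h; simp
    · rw [hsupp i h]; simp [h]
  have hn := norm_S x
  rw [hx, EuclideanSpace.norm_single, Real.norm_eq_abs] at hn
  rcases eq_or_eq_neg_of_abs_eq hn with h | h
  · refine ⟨1, a, Subtype.ext ?_⟩
    rw [rot_sg_coe, pt_coe, hx, h]; simp
  · refine ⟨-1, a, Subtype.ext ?_⟩
    rw [rot_sg_coe, pt_coe, hx, h]
    ext i
    by_cases h : i = a <;> simp [h]

section Model2

variable {N : Type} [MetricSpace N] {p : MM → N} (hp : IsModel N p)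
  {E : Type} [NormedAddCommGroup E] [NormedSpace ℝ E] {R : ℝ} (G : Geo N E R)
  [CompactSpace N] [Nonempty N]

include hp G

theorem le_totalBetti : 32 ≤ totalBetti (ZMod 2) N := by
  obtain ⟨g₁, h₁⟩ := hp.iso (dg χ₁, (dg χ₁, dg χ₁))
  obtain ⟨g₂, h₂⟩ := hp.iso (dg χ₂, (dg χ₂, dg χ₂))
  have hinv : ∀ g ∈ [g₁, g₂], ∀ x, g (g x) = x := by
    intro g hg y
    obtain ⟨x, rfl⟩ := hp.surj y
    simp only [List.mem_cons, List.not_mem_nil, or_false] at hg
    rcases hg with rfl | rfl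
    · rw [h₁, h₁]; congr 1
      exact Prod.ext (Subtype.ext (dg_dg _ _)) (Prod.ext (Subtype.ext (dg_dg _ _))
        (Subtype.ext (dg_dg _ _)))
    · rw [h₂, h₂]; congr 1
      exact Prod.ext (Subtype.ext (dg_dg _ _)) (Prod.ext (Subtype.ext (dg_dg _ _))
        (Subtype.ext (dg_dg _ _)))
  have hc12 : ∀ y, g₁ (g₂ y) = g₂ (g₁ y) := by
    intro y
    obtain ⟨x, rfl⟩ := hp.surj y
    rw [h₁, h₂, h₁, h₂]; congr 1
    exact Prod.ext (Subtype.ext (dg_comm _ _ _)) (Prod.ext (Subtype.ext (dg_comm _ _ _))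
        (Subtype.ext (dg_comm _ _ _)))
  have hcomm : ∀ g ∈ [g₁, g₂], ∀ h ∈ [g₁, g₂], ∀ x, g (h x) = h (g x) := by
    intro g hg h hh y
    simp only [List.mem_cons, List.not_mem_nil, or_false] at hg hh
    rcases hg with rfl | rfl <;> rcases hh with rfl | rfl
    · rfl
    · exact hc12 y
    · exact (hc12 y).symm
    · rfl
  set F : Set N := {x | ∀ g ∈ [g₁, g₂], g x = x} with hF
  have hFmem : ∀ y, y ∈ F ↔ g₁ y = y ∧ g₂ y = y := by
    intro y; simp [hF]
  have hfin : F.Finite := by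
    have hsub : F ⊆ range (fun q : (ℤˣ × Fin 4) × ((ℤˣ × Fin 4) × (ℤˣ × Fin 4)) =>
        p (rot (sg q.1.1) (pt q.1.2), (rot (sg q.2.1.1) (pt q.2.1.2),
          rot (sg q.2.2.1) (pt q.2.2.2)))) := by
      intro y hy
      obtain ⟨y1, y2⟩ := (hFmem y).1 hy
      obtain ⟨x, rfl⟩ := hp.surj y
      rw [h₁, eq_comm, hp.fib] at y1
      rw [h₂, eq_comm, hp.fib] at y2
      obtain ⟨γ, hγ⟩ := y1
      obtain ⟨γ', hγ'⟩ := y2
      obtain ⟨s1, a1, e1⟩ := eigen (x := x.1) (congrArg Prod.fst hγ).symm (congrArg Prod.fst hγ').symm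
      obtain ⟨s2, a2, e2⟩ := eigen (x := x.2.1) (congrArg (fun q : MM => q.2.1) hγ).symm
        (congrArg (fun q : MM => q.2.1) hγ').symm
      obtain ⟨s3, a3, e3⟩ := eigen (x := x.2.2) (congrArg (fun q : MM => q.2.2) hγ).symm
        (congrArg (fun q : MM => q.2.2) hγ').symm
      refine ⟨((s1, a1), ((s2, a2), (s3, a3))), ?_⟩
      show p (rot (sg s1) (pt a1), (rot (sg s2) (pt a2), rot (sg s3) (pt a3))) = p x
      rw [← e1, ← e2, ← e3]
    exact (Set.finite_range _).subset hsub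
  -- the 32 points
  let T : Fin 4 × (Fin 4 × ℤˣ) → N := fun q => p (P q.2.2 q.1 q.2.1 (xor4 q.1 q.2.1))
  have hT : Function.Injective T := by
    rintro ⟨a, b, s⟩ ⟨a', b', s'⟩ h
    obtain ⟨e1, e2, e3, -⟩ := P_inj hp h
    exact Prod.ext e2 (Prod.ext e3 e1)
  have hTF : ∀ q, T q ∈ F := by
    rintro ⟨a, b, s⟩
    rw [hFmem]
    constructor
    · show g₁ (p _) = p _
      rw [h₁, eq_comm, hp.fib]
      refine ⟨((χ₁ a, χ₁ b) : ℤˣ × ℤˣ), Prod.ext (dg_pt χ₁ s a).symm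
        (Prod.ext (dg_pt χ₁ 1 b).symm ?_)⟩
      refine Eq.trans ?_ (dg_pt χ₁ 1 (xor4 a b)).symm
      show rot (sg (χ₁ a * χ₁ b)) _ = _
      rw [← χ₁_xor]; rfl
    · show g₂ (p _) = p _
      rw [h₂, eq_comm, hp.fib]
      refine ⟨((χ₂ a, χ₂ b) : ℤˣ × ℤˣ), Prod.ext (dg_pt χ₂ s a).symm
        (Prod.ext (dg_pt χ₂ 1 b).symm ?_)⟩
      refine Eq.trans ?_ (dg_pt χ₂ 1 (xor4 a b)).symm
      show rot (sg (χ₂ a * χ₂ b)) _ = _
      rw [← χ₂_xor]; rfl
  have hle : (range T).encard ≤ F.encard := Set.encard_le_encard (by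
    rintro _ ⟨q, rfl⟩; exact hTF q)
  have h32 : (range T).encard = 32 := by
    rw [← Set.image_univ, hT.injOn.encard_image, Set.encard_univ, ENat.card_eq_coe_fintype_card]
    simp
  rw [← h32]
  exact hle.trans (fix_ncard_le G [g₁, g₂] hinv hcomm hfin)

end Model2

end Pool.Agent.Helper760_TN
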