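import Pool.Agent.Helper760_TN.Cover
import Pool.Agent.Q145.TN.Metrize

/-! The quotient of `S³ × S³ × S³` by the even sign changes. -/

set_option autoImplicit false

open scoped Manifold ContDiff Topology ENNReal
open Set Bundle Bornology Filter Manifold Module
open Pool.Agent.Y503.HC

noncomputable section

namespace Pool.Agent.Helper760_TN

/-- The group of the even sign changes `(ε, δ, ε δ)`. -/
def Gam : Type := ℤˣ × ℤˣ

instance : CommGroup Gam := inferInstanceAs (CommGroup (ℤˣ × ℤˣ))
instance : Finite Gam := inferInstanceAs (Finite (ℤˣ × ℤˣ))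

/-- a sign as an orthogonal map -/
def sg (ε : ℤˣ) : O := if ε = 1 then 1 else LinearIsometryEquiv.neg ℝ

lemma sg_apply (ε : ℤˣ) (x : V) : sg ε x = ((ε : ℤ) : ℝ) • x := by
  rcases Int.units_eq_one_or ε with rfl | rfl
  · simp [sg]
  · simp [sg]

lemma sg_mul (ε δ : ℤˣ) : sg (ε * δ) = sg ε * sg δ := by
  ext1 x
  show sg (ε * δ) x = sg ε (sg δ x)
  rw [sg_apply, sg_apply, sg_apply, smul_smul]
  simp

lemma sg_one : sg 1 = 1 := by simp [sg]

lemma sg_comm (ε : ℤˣ) (T : O) : sg ε * T = T * sg ε := by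
  ext1 x
  show sg ε (T x) = T (sg ε x)
  rw [sg_apply, sg_apply, T.map_smul]

/-- the sign changes as orthogonal maps -/
def sig : Gam →* O × (O × O) where
  toFun γ := (sg γ.1, (sg γ.2, sg (γ.1 * γ.2)))
  map_one' := by
    show (sg 1, (sg 1, sg (1 * 1))) = 1
    rw [mul_one, sg_one]; rfl
  map_mul' γ γ' := by
    show (sg (γ.1 * γ'.1), (sg (γ.2 * γ'.2), sg ((γ.1 * γ'.1) * (γ.2 * γ'.2)))) =
      (sg γ.1 * sg γ'.1, (sg γ.2 * sg γ'.2, sg (γ.1 * γ.2) * sg (γ'.1 * γ'.2)))
    rw [mul_mul_mul_comm, sg_mul, sg_mul, sg_mul (γ.1 * γ.2)]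

instance : MulAction Gam MM where
  smul γ x := act (sig γ) x
  one_smul x := by
    show act (sig 1) x = x
    rw [map_one, act_one]
  mul_smul γ γ' x := by
    show act (sig (γ * γ')) x = act (sig γ) (act (sig γ') x)
    rw [map_mul, act_mul]

lemma smul_def (γ : Gam) (x : MM) : γ • x = act (sig γ) x := rfl

lemma sig_comm (γ : Gam) (T : O × (O × O)) : sig γ * T = T * sig γ := by
  show (sg γ.1 * T.1, (sg γ.2 * T.2.1, sg (γ.1 * γ.2) * T.2.2)) =
    (T.1 * sg γ.1, (T.2.1 * sg γ.2, T.2.2 * sg (γ.1 * γ.2)))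
  rw [sg_comm, sg_comm, sg_comm (γ.1 * γ.2)]

lemma act_smul (γ : Gam) (T : O × (O × O)) (x : MM) : act T (γ • x) = γ • act T x := by
  rw [smul_def, smul_def, ← act_mul, ← act_mul, sig_comm]

lemma ne_zero_S (x : S) : (x : V) ≠ 0 := by
  intro h
  have := mem_sphere_zero_iff_norm.1 x.2
  rw [h, norm_zero] at this
  norm_num at this

lemma rot_sg_eq {ε : ℤˣ} {x : S} (h : rot (sg ε) x = x) : ε = 1 := by
  rcases Int.units_eq_one_or ε with rfl | rfl
  · rfl
  · exfalso
    have h1 : sg (-1) (x : V) = x := congrArg Subtype.val h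
    rw [sg_apply] at h1
    simp only [Units.val_neg, Units.val_one, Int.cast_neg, Int.cast_one, neg_smul, one_smul] at h1
    have h2 : (2 : ℝ) • (x : V) = 0 := by
      rw [two_smul]
      nth_rewrite 1 [← h1]
      exact neg_add_cancel _
    rcases smul_eq_zero.1 h2 with h3 | h3
    · norm_num at h3
    · exact ne_zero_S x h3

lemma free (γ : Gam) (x : MM) (h : γ • x = x) : γ = 1 := by
  have h1 : rot (sg γ.1) x.1 = x.1 := congrArg Prod.fst h
  have h2 : rot (sg γ.2) x.2.1 = x.2.1 := congrArg (fun q : MM => q.2.1) h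
  exact Prod.ext (rot_sg_eq h1) (rot_sg_eq h2)

/-- The structure of the quotient which is used below. -/
theorem exists_N : ∃ (N : Type) (_ : TopologicalSpace N) (_ : ChartedSpace HH N)
    (_ : IsManifold II ∞ N) (_ : T2Space N) (g' : Metric II N) (p : MM → N),
    IsQuotient Gam gM g' p :=
  exists_quotient gM Gam (fun γ => ⟨actD (sig γ), actD_isometry _, fun _ => rfl⟩) free

section Desc

variable {N : Type} [TopologicalSpace N] [ChartedSpace HH N] [IsManifold II ∞ N]
  {g' : Metric II N} {p : MM → N}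

/-- the map induced on the quotient -/
def desc (hp : Function.Surjective p) (T : O × (O × O)) (n : N) : N :=
  p (act T (Function.surjInv hp n))

lemma desc_apply (h : IsQuotient Gam gM g' p) (T : O × (O × O)) (x : MM) :
    desc h.surjective T (p x) = p (act T x) := by
  have h1 : p (Function.surjInv h.surjective (p x)) = p x := Function.surjInv_eq _ _
  obtain ⟨γ, hγ⟩ := (h.fibre _ _).1 h1
  show p (act T (Function.surjInv h.surjective (p x))) = p (act T x)
  rw [h.fibre]
  exact ⟨γ, by rw [← act_smul, hγ]⟩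

lemma desc_smooth (h : IsQuotient Gam gM g' p) (T : O × (O × O)) :
    ContMDiff II II ∞ (desc h.surjective T) := by
  intro n
  obtain ⟨x, rfl⟩ := h.surjective n
  obtain ⟨Φ, hx, hΦ⟩ := h.localDiffeo x
  have hpx : p x ∈ Φ.target := by
    rw [hΦ hx]; exact Φ.map_source hx
  have hsm : ContMDiffAt II II ∞ Φ.symm (p x) :=
    (Φ.contMDiffOn_invFun).contMDiffAt (Φ.open_target.mem_nhds hpx)
  have hp : ContMDiff II II ∞ p := h.localDiffeo.contMDiff
  have h1 : ContMDiffAt II II ∞ (fun m => p (act T (Φ.symm m))) (p x) :=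
    (hp.comp (act_smooth T)).contMDiffAt.comp (p x) hsm
  refine h1.congr_of_eventuallyEq ?_
  filter_upwards [Φ.open_target.mem_nhds hpx] with m hm
  have h2 : p (Φ.symm m) = m := (hΦ (Φ.map_target hm)).trans (Φ.right_inv hm)
  conv_lhs => rw [← h2]
  exact desc_apply h T _

lemma desc_iso (h : IsQuotient Gam gM g' p) (T : O × (O × O)) (n : N) (v : TangentSpace II n) :
    g'.inner (desc h.surjective T n) (mfderiv II II (desc h.surjective T) n v)
      (mfderiv II II (desc h.surjective T) n v) = g'.inner n v v := by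
  obtain ⟨x, rfl⟩ := h.surjective n
  have hp : ContMDiff II II ∞ p := h.localDiffeo.contMDiff
  have hd : MDifferentiableAt II II p x := (hp x).mdifferentiableAt (by simp)
  obtain ⟨w, hw⟩ : ∃ w : EE, (mfderiv II II p x : EE →L[ℝ] EE) w = v :=
    ((h.localDiffeo x).mfderivToContinuousLinearEquiv (by simp)).surjective v
  have hd2 : MDifferentiableAt II II p (act T x) := (hp _).mdifferentiableAt (by simp)
  have hT : MDifferentiableAt II II (act T) x := (act_smooth T x).mdifferentiableAt (by simp)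
  have hD : MDifferentiableAt II II (desc h.surjective T) (p x) :=
    (desc_smooth h T _).mdifferentiableAt (by simp)
  have e1 := mfderiv_comp x hD hd
  have e2 := mfderiv_comp x hd2 hT
  have e3 : desc h.surjective T ∘ p = p ∘ act T := funext (desc_apply h T)
  have e4 : (mfderiv II II (desc h.surjective T) (p x) : EE →L[ℝ] EE)
      ((mfderiv II II p x : EE →L[ℝ] EE) w) =
      (mfderiv II II p (act T x) : EE →L[ℝ] EE) ((mfderiv II II (act T) x : EE →L[ℝ] EE) w) := by
    have e5 : (mfderiv II II (desc h.surjective T ∘ p) x : EE →L[ℝ] EE) w =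
        (mfderiv II II (p ∘ act T) x : EE →L[ℝ] EE) w := by rw [e3]
    exact (congrArg (fun L : EE →L[ℝ] EE => L w) e1).symm.trans
      (e5.trans (congrArg (fun L : EE →L[ℝ] EE => L w) e2))
  rw [← hw]
  have h1 := inner_congr g' (desc_apply h T x)
    ((mfderiv II II (desc h.surjective T) (p x) : EE →L[ℝ] EE)
      ((mfderiv II II p x : EE →L[ℝ] EE) w))
    ((mfderiv II II (desc h.surjective T) (p x) : EE →L[ℝ] EE)
      ((mfderiv II II p x : EE →L[ℝ] EE) w))
  refine h1.trans ?_
  rw [e4]
  have h2 := h.induced (act T x) (mfderiv II II (act T) x w) (mfderiv II II (act T) x w)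
  refine Eq.trans h2 ?_
  have h3 := actD_isometry T x w w
  refine Eq.trans h3 ?_
  exact (h.induced x w w).symm

end Desc

end Pool.Agent.Helper760_TN
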