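import Pool.Agent.Helper381.Main

/-! The number of isolated common fixed points of commuting isometric involutions is at most the
total Betti number mod 2. -/

set_option autoImplicit false

namespace Pool.Agent.Helper760_TN

open Pool.Agent.Helper381 Metric Set Module

universe u v

variable {M : Type u} {E : Type v} [MetricSpace M] [NormedAddCommGroup E] [NormedSpace ℝ E]
  {R : ℝ}

theorem geo_mono (G : Geo M E R) {R' : ℝ} (h0 : 0 < R') (h : R' ≤ R) : Geo M E R' where
  Rpos := h0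
  chart p := by
    obtain ⟨c, hc⟩ := G.chart p
    exact ⟨c, (ball_subset_ball h).trans hc⟩
  midpt := G.midpt

/-- the common fixed points of commuting isometric involutions which are isolated at the scale
`R` -/
theorem fix_card_le (G : Geo M E R) [CompactSpace M] [Nonempty M] (gs : List (M ≃ᵢ M))
    (hinv : ∀ g ∈ gs, ∀ x, g (g x) = x)
    (hcomm : ∀ g ∈ gs, ∀ h ∈ gs, ∀ x, g (h x) = h (g x))
    (A : Finset M) (hfix : ∀ g ∈ gs, ∀ a ∈ A, g a = a)
    (hiso : ∀ a ∈ A, ∀ y, dist y a < R → (∀ g ∈ gs, g y = y) → y = a) :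
    (A.card : ℕ∞) ≤ totalBetti (ZMod 2) M := by
  classical
  have : Fact (Nat.Prime 2) := ⟨Nat.prime_two⟩
  have hR := G.Rpos
  obtain ⟨F, hF, hFg⟩ := exists_net (M := M) gs hinv hcomm (R / 4) (by linarith)
  have hρR : 4 * (R / 4) ≤ R := by linarith
  set ρ := R / 4 with hρ
  have hQ := Fam_finite F ρ
  obtain ⟨a1, N1, b1⟩ := G.betti_finite (ZMod 2)
  set N := max (N1) (max (Fam F ρ).ncard 1) with hN
  have hN1 : N1 ≤ N := le_max_left _ _
  have hN2 : (Fam F ρ).ncard ≤ N := le_trans (le_max_left _ _) (le_max_right _ _)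
  have hN3 : 1 ≤ N := le_trans (le_max_right _ _) (le_max_right _ _)
  rw [totalBetti_eq N a1 (fun n hn => b1 n (hN1.trans hn)), Nat.cast_le]
  have e1 : ∀ n, finrank (ZMod 2) (SingCoh (ZMod 2) M n) =
      finrank (ZMod 2) (OrdCoh (ZMod 2) (Fam F ρ) n) := by
    intro n
    obtain ⟨e⟩ := G.nerve hρR hF (ZMod 2) n
    exact LinearEquiv.finrank_eq e
  simp only [e1]
  have hgood := goodList F ρ gs hinv hcomm hFg
  have h1 := smith_list hQ (gs.map imS) hgood N hN2
  refine le_trans ?_ h1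
  have h2 : finrank (ZMod 2) (OrdCoh (ZMod 2) (fixS (Fam F ρ) (gs.map imS)) 0) ≤
      ∑ n ∈ Finset.range N,
        finrank (ZMod 2) (OrdCoh (ZMod 2) (fixS (Fam F ρ) (gs.map imS)) n) :=
    Finset.single_le_sum (f := fun n =>
      finrank (ZMod 2) (OrdCoh (ZMod 2) (fixS (Fam F ρ) (gs.map imS)) n))
      (fun _ _ => Nat.zero_le _) (Finset.mem_range.mpr hN3)
  refine le_trans ?_ h2
  have h3 := components_le (Q := fixS (Fam F ρ) (gs.map imS))
    (hQ.subset (fixS_subset _ _)) (ι := A) (fun a => Jm F ρ {a.1})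
    (fun a => Jm_fixS F ρ hF gs hinv hFg a.1 (fun g hg => hfix g hg a.1 a.2))
    (fun a C => if a.1 ∈ C then 1 else 0) ?_ ?_
  · rwa [Fintype.card_coe] at h3
  · intro a C hC C' hC' hle
    have key : a.1 ∈ C' → a.1 ∈ C := by
      intro haC'
      obtain ⟨hCF, hCg⟩ := (mem_fixS F ρ gs C).mp hC
      obtain ⟨y, hyC, hy⟩ := G.fam_fixed hρR hCF
      have hyg : ∀ g ∈ gs, g y = y := fun g hg =>
        hy g (net_iff F g (hinv g hg) (hFg g hg)) (hCg g hg)
      have hd := Fam_dist ((mem_fixS F ρ gs C').mp hC').1 (hle hyC) haC'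
      have := hiso a.1 a.2 y (by linarith) hyg
      rw [← this]; exact hyC
    by_cases h : a.1 ∈ C
    · have h' : a.1 ∈ C' := hle h
      simp [h, h']
    · have h' : a.1 ∉ C' := fun h' => h (key h')
      simp [h, h']
  · intro a b
    by_cases hab : a = b
    · subst hab
      have : a.1 ∈ Jm F ρ {a.1} := subset_Jm F ρ _ rfl
      simp [this]
    · have : a.1 ∉ Jm F ρ {b.1} := by
        intro h
        apply hab
        apply Subtype.ext
        have hJ := Jm_fixS F ρ hF gs hinv hFg b.1 (fun g hg => hfix g hg b.1 b.2)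
        have hd := Fam_dist ((mem_fixS F ρ gs _).mp hJ).1 h
          (subset_Jm F ρ _ (rfl : b.1 ∈ ({b.1} : Set M)))
        exact hiso b.1 b.2 a.1 (by linarith) (fun g hg => hfix g hg a.1 a.2)
      simp [this, hab]

/-- If the set of the common fixed points of commuting isometric involutions is finite, its
cardinality is at most the total Betti number mod 2. -/
theorem fix_ncard_le (G : Geo M E R) [CompactSpace M] [Nonempty M] (gs : List (M ≃ᵢ M))
    (hinv : ∀ g ∈ gs, ∀ x, g (g x) = x)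
    (hcomm : ∀ g ∈ gs, ∀ h ∈ gs, ∀ x, g (h x) = h (g x))
    (hfin : {x : M | ∀ g ∈ gs, g x = x}.Finite) :
    {x : M | ∀ g ∈ gs, g x = x}.encard ≤ totalBetti (ZMod 2) M := by
  classical
  set F : Set M := {x : M | ∀ g ∈ gs, g x = x} with hF
  obtain ⟨δ, hδ, hsep⟩ : ∃ δ > 0, ∀ a ∈ F, ∀ b ∈ F, dist a b < δ → a = b := by
    have h1 : (F ×ˢ F).Finite := hfin.prod hfin
    by_cases hne : ∃ q ∈ F ×ˢ F, q.1 ≠ q.2
    · have h2 : {q ∈ F ×ˢ F | q.1 ≠ q.2}.Finite := h1.subset (fun q hq => hq.1)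
      obtain ⟨q0, hq0, hq0'⟩ := hne
      obtain ⟨q, hq, hmin⟩ := h2.exists_minimalFor (fun q : M × M => dist q.1 q.2) _ ⟨q0, hq0, hq0'⟩
      refine ⟨dist q.1 q.2, dist_pos.2 hq.2, ?_⟩
      intro a ha b hb hab
      by_contra hne
      have := hmin (j := (a, b)) ⟨⟨ha, hb⟩, hne⟩ hab.le
      exact absurd hab (not_lt.2 this)
    · push Not at hne
      exact ⟨1, one_pos, fun a ha b hb _ => hne (a, b) ⟨ha, hb⟩⟩
  have G' : Geo M E (min R δ) := geo_mono G (lt_min G.Rpos hδ) (min_le_left _ _)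
  have h := fix_card_le G' gs hinv hcomm hfin.toFinset
    (fun g hg a ha => (hfin.mem_toFinset.1 ha) g hg)
    (fun a ha y hy hg => hsep y hg a (hfin.mem_toFinset.1 ha) (lt_of_lt_of_le hy (min_le_right _ _)))
  rw [hfin.encard_eq_coe_toFinset_card]
  exact h

end Pool.Agent.Helper760_TN
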