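import Pool.Agent.Helper760_TN.Quot

/-! The quotient as a Riemannian manifold in the sense of Mathlib, and its isometries. -/

set_option autoImplicit false

open scoped Manifold ContDiff Topology ENNReal
open Set Bundle Bornology Filter Manifold Module
open Pool.Agent.Y503.HC

noncomputable section

namespace Pool.Agent.Helper760_TN

/-- Interface: `N` is a Riemannian manifold and `p` presents it as the quotient of
`S³ × S³ × S³` by the even sign changes; triples of orthogonal maps induce isometries. -/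
structure IsModel (N : Type) [MetricSpace N] (p : MM → N) : Prop where
  cont : Continuous p
  surj : Function.Surjective p
  fib : ∀ x y, p x = p y ↔ ∃ γ : Gam, γ • x = y
  iso : ∀ T : O × (O × O), ∃ f : N ≃ᵢ N, ∀ x, f (p x) = p (act T x)

lemma II_eq : (II : ModelWithCorners ℝ EE EE) = 𝓘(ℝ, EE) := by
  show (𝓘(ℝ, E3)).prod ((𝓘(ℝ, E3)).prod (𝓘(ℝ, E3))) = 𝓘(ℝ, E3 × (E3 × E3))
  rw [modelWithCornersSelf_prod, modelWithCornersSelf_prod]

theorem transport (I : ModelWithCorners ℝ EE EE) (hI : I = 𝓘(ℝ, EE)) (N : Type)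
    [tN : TopologicalSpace N] [ChartedSpace EE N] [IsManifold I ∞ N] [T2Space N] [CompactSpace N]
    [ConnectedSpace N] (g : Metric I N) (p : MM → N) (hc : Continuous p)
    (hs : Function.Surjective p) (hf : ∀ x y, p x = p y ↔ ∃ γ : Gam, γ • x = y)
    (hT : ∀ T : O × (O × O), ∃ f : N → N, ContMDiff I I ∞ f ∧
      (∀ (n : N) (v : TangentSpace I n), g.inner (f n) (mfderiv I I f n v) (mfderiv I I f n v) =
        g.inner n v v) ∧ ∀ x, f (p x) = p (act T x)) :
    ∃ (N : Type) (_ : MetricSpace N) (_ : CompactSpace N) (_ : ConnectedSpace N)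
      (_ : ChartedSpace EE N)
      (_ : IsManifold 𝓘(ℝ, EE) ∞ N) (_ : RiemannianBundle (fun x : N => TangentSpace 𝓘(ℝ, EE) x))
      (_ : IsContMDiffRiemannianBundle 𝓘(ℝ, EE) ∞ EE (fun x : N => TangentSpace 𝓘(ℝ, EE) x))
      (_ : IsRiemannianManifold 𝓘(ℝ, EE) N) (p : MM → N), IsModel N p := by
  subst hI
  have hle : ∀ (f : N → N), ContMDiff 𝓘(ℝ, EE) 𝓘(ℝ, EE) ∞ f →
      (∀ (n : N) (v : TangentSpace 𝓘(ℝ, EE) n), g.inner (f n) (mfderiv 𝓘(ℝ, EE) 𝓘(ℝ, EE) f n v)
        (mfderiv 𝓘(ℝ, EE) 𝓘(ℝ, EE) f n v) = g.inner n v v) →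
      ∀ x y, Y503.HC.dist g (f x) (f y) ≤ Y503.HC.dist g x y := fun f h1 h2 x y =>
    dist_map_le g g h1 h2 x y
  let m1 : MetricSpace N := Q145.TN.mS g
  let r1 : RiemannianBundle (fun x : N => TangentSpace 𝓘(ℝ, EE) x) := Q145.TN.rb g
  refine ⟨N, m1, ‹CompactSpace N›, ‹ConnectedSpace N›, ‹ChartedSpace EE N›,
    ‹IsManifold 𝓘(ℝ, EE) ∞ N›, r1,
    Q145.TN.smooth_rb g, Q145.TN.irm g, p, hc, hs, hf, fun T => ?_⟩
  obtain ⟨f, a1, a2, a3⟩ := hT T
  obtain ⟨f', b1, b2, b3⟩ := hT T⁻¹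
  have c1 : ∀ n, f' (f n) = n := by
    intro n
    obtain ⟨x, rfl⟩ := hs n
    rw [a3, b3, ← act_mul, inv_mul_cancel, act_one]
  have c2 : ∀ n, f (f' n) = n := by
    intro n
    obtain ⟨x, rfl⟩ := hs n
    rw [b3, a3, ← act_mul, mul_inv_cancel, act_one]
  have hiso : Isometry f := by
    intro x y
    apply le_antisymm
    · exact hle f a1 a2 x y
    · have := hle f' b1 b2 (f x) (f y)
      rw [c1, c1] at this
      exact this
  exact ⟨⟨⟨f, f', c1, c2⟩, hiso⟩, a3⟩

theorem exists_model : ∃ (N : Type) (_ : MetricSpace N) (_ : CompactSpace N) (_ : ConnectedSpace N)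
      (_ : ChartedSpace EE N)
      (_ : IsManifold 𝓘(ℝ, EE) ∞ N) (_ : RiemannianBundle (fun x : N => TangentSpace 𝓘(ℝ, EE) x))
      (_ : IsContMDiffRiemannianBundle 𝓘(ℝ, EE) ∞ EE (fun x : N => TangentSpace 𝓘(ℝ, EE) x))
      (_ : IsRiemannianManifold 𝓘(ℝ, EE) N) (p : MM → N), IsModel N p := by
  obtain ⟨N, t, c, m, t2, g', p, h⟩ := exists_N
  have hp : ContMDiff II II ∞ p := h.localDiffeo.contMDiff
  have hcomp : CompactSpace N := by
    refine ⟨?_⟩
    have := isCompact_univ (X := MM)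
    have h2 := this.image hp.continuous
    rwa [image_univ, h.surjective.range_eq] at h2
  have hS : ConnectedSpace S := by
    have h1 : 1 < Module.rank ℝ V := by
      rw [← Module.finrank_eq_rank]
      simp
    exact isConnected_iff_connectedSpace.1 (isConnected_sphere h1 0 zero_le_one)
  have hconn : ConnectedSpace N := h.surjective.connectedSpace hp.continuous
  exact @transport (II : ModelWithCorners ℝ EE EE) II_eq N t c m t2 hcomp hconn g' p hp.continuous
    h.surjective h.fibre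
    (fun T => ⟨desc h.surjective T, desc_smooth h T, desc_iso h T, desc_apply h T⟩)

end Pool.Agent.Helper760_TN
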