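import Pool.Agent.Helper760_TN.Space
import Pool.Agent.Helper760_TN.Smith

/-! The symmetries of the quotient, antipodal pairs. -/

set_option autoImplicit false

open scoped Topology RealInnerProductSpace
open Set Filter Module
open Pool.Agent.Helper381

noncomputable section

namespace Pool.Agent.Helper760_TN

lemma norm_S (x : S) : ‖(x : V)‖ = 1 := mem_sphere_zero_iff_norm.1 x.2

/-- `w = ± u` -/
def Par (u w : S) : Prop := ∃ ε : ℤˣ, w = rot (sg ε) u

/-- orthogonal points -/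
def Perp (u w : S) : Prop := ⟪(u : V), (w : V)⟫ = 0

lemma rot_sg_mul (ε δ : ℤˣ) (x : S) : rot (sg (ε * δ)) x = rot (sg ε) (rot (sg δ) x) := by
  rw [sg_mul, rot_mul]

lemma Par.refl (u : S) : Par u u := ⟨1, by rw [sg_one, rot_one]⟩

lemma Par.symm {u w : S} (h : Par u w) : Par w u := by
  obtain ⟨ε, rfl⟩ := h
  exact ⟨ε, by rw [← rot_sg_mul, Int.units_mul_self, sg_one, rot_one]⟩

lemma Par.trans {u w z : S} (h : Par u w) (h' : Par w z) : Par u z := by
  obtain ⟨ε, rfl⟩ := h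
  obtain ⟨δ, rfl⟩ := h'
  exact ⟨δ * ε, (rot_sg_mul _ _ _).symm⟩

lemma rot_sg_coe (ε : ℤˣ) (x : S) : ((rot (sg ε) x : S) : V) = ((ε : ℤ) : ℝ) • (x : V) := by
  rw [rot_coe, sg_apply]

lemma sign_sq (ε : ℤˣ) : ((ε : ℤ) : ℝ) * ((ε : ℤ) : ℝ) = 1 := by
  rcases Int.units_eq_one_or ε with rfl | rfl <;> simp

lemma not_perp_of_par {u w : S} (h : Par u w) : ¬ Perp u w := by
  obtain ⟨ε, rfl⟩ := h
  intro h
  unfold Perp at h
  rw [rot_sg_coe, inner_smul_right, real_inner_self_eq_norm_sq, norm_S] at h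
  rcases Int.units_eq_one_or ε with rfl | rfl <;> simp at h

/-- the linear symmetry fixing the line of `u` -/
def rf (u : S) : O := (ℝ ∙ (u : V)).reflection

lemma rf_apply (u : S) (x : V) : rf u x = (2 * ⟪(u : V), x⟫) • (u : V) - x := by
  unfold rf
  rw [Submodule.reflection_singleton_apply]
  simp only [norm_S]
  simp only [RCLike.ofReal_real_eq_id, id_eq, one_pow, div_one, sub_left_inj]
  rw [mul_smul, two_smul, two_smul]

lemma rf_self (u : S) : rot (rf u) u = u := by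
  apply Subtype.ext
  rw [rot_coe, rf_apply, real_inner_self_eq_norm_sq, norm_S]
  rw [show (2 : ℝ) * 1 ^ 2 = 2 by norm_num, two_smul]
  abel

lemma rf_rf (u x : S) : rot (rf u) (rot (rf u) x) = x := by
  apply Subtype.ext
  exact Submodule.reflection_reflection _ _

lemma rf_of_perp {u w : S} (h : Perp u w) : rot (rf u) w = rot (sg (-1)) w := by
  apply Subtype.ext
  rw [rot_sg_coe, rot_coe, rf_apply, h]
  simp

lemma rf_of_par {u w : S} (h : Par u w) : rot (rf u) w = rot (sg 1) w := by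
  obtain ⟨ε, rfl⟩ := h
  rw [← rot_mul, ← sg_comm, rot_mul, rf_self, sg_one, rot_one]

lemma par_of_rf {u w : S} (h : rot (rf u) w = rot (sg 1) w) : Par u w := by
  have h1 : rf u (w : V) = w := by
    have := congrArg (Subtype.val) h
    rwa [sg_one, rot_one] at this
  rw [rf_apply] at h1
  have h2 : (w : V) = ⟪(u : V), (w : V)⟫ • (u : V) := by
    have h3 : (2 * ⟪(u : V), (w : V)⟫) • (u : V) = (2 : ℝ) • (w : V) := by
      rw [two_smul, ← sub_eq_iff_eq_add]; exact h1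
    rw [mul_smul] at h3
    exact (smul_right_injective V (two_ne_zero (α := ℝ)) h3).symm
  set c : ℝ := ⟪(u : V), (w : V)⟫ with hc
  have h4 : |c| = 1 := by
    have h5 := norm_S w
    rw [h2, norm_smul, norm_S, mul_one, Real.norm_eq_abs] at h5
    exact h5
  rcases eq_or_eq_neg_of_abs_eq h4 with h5 | h5
  · refine ⟨1, Subtype.ext ?_⟩
    rw [rot_sg_coe, h2, h5]; simp
  · refine ⟨-1, Subtype.ext ?_⟩
    rw [rot_sg_coe, h2, h5]; simp

lemma perp_of_rf {u w : S} (h : rot (rf u) w = rot (sg (-1)) w) : Perp u w := by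
  have h1 := congrArg (Subtype.val) h
  change rf u (w : V) = sg (-1) (w : V) at h1
  rw [rf_apply, sg_apply] at h1
  have h2 : (2 * ⟪(u : V), (w : V)⟫) • (u : V) = 0 := by
    have h3 : ((( (-1 : ℤˣ) : ℤˣ) : ℤ) : ℝ) • (w : V) = - (w : V) := by simp
    rw [h3, sub_eq_iff_eq_add] at h1
    rw [h1]; abel
  rcases smul_eq_zero.1 h2 with h3 | h3
  · unfold Perp
    linarith
  · exact absurd h3 (ne_zero_S u)

/-- the triple of symmetries -/
def rf3 (v : MM) : O × (O × O) := (rf v.1, (rf v.2.1, rf v.2.2))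

/-- exactly one of the three components of the two points is equal up to sign, and the two
others are orthogonal -/
def Diff (v w : MM) : Prop :=
  (Par v.1 w.1 ∧ Perp v.2.1 w.2.1 ∧ Perp v.2.2 w.2.2) ∨
  (Perp v.1 w.1 ∧ Par v.2.1 w.2.1 ∧ Perp v.2.2 w.2.2) ∨
  (Perp v.1 w.1 ∧ Perp v.2.1 w.2.1 ∧ Par v.2.2 w.2.2)

/-- all the components are equal up to sign -/
def Same (v w : MM) : Prop := Par v.1 w.1 ∧ Par v.2.1 w.2.1 ∧ Par v.2.2 w.2.2

lemma fixed_cases {v w : MM} {γ : Gam} (h : γ • w = act (rf3 v) w) : Same v w ∨ Diff v w := by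
  have h1 : rot (rf v.1) w.1 = rot (sg γ.1) w.1 := (congrArg Prod.fst h).symm
  have h2 : rot (rf v.2.1) w.2.1 = rot (sg γ.2) w.2.1 := (congrArg (fun q : MM => q.2.1) h).symm
  have h3 : rot (rf v.2.2) w.2.2 = rot (sg (γ.1 * γ.2)) w.2.2 :=
    (congrArg (fun q : MM => q.2.2) h).symm
  rcases Int.units_eq_one_or γ.1 with e1 | e1 <;> rcases Int.units_eq_one_or γ.2 with e2 | e2 <;>
    rw [e1, e2] at h3 <;> rw [e1] at h1 <;> rw [e2] at h2
  · exact Or.inl ⟨par_of_rf h1, par_of_rf h2, par_of_rf (by simpa using h3)⟩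
  · exact Or.inr (Or.inl ⟨par_of_rf h1, perp_of_rf h2, perp_of_rf (by simpa using h3)⟩)
  · exact Or.inr (Or.inr (Or.inl ⟨perp_of_rf h1, par_of_rf (by simpa using h2),
      perp_of_rf (by simpa using h3)⟩))
  · exact Or.inr (Or.inr (Or.inr ⟨perp_of_rf h1, perp_of_rf h2, par_of_rf (by simpa using h3)⟩))

lemma fixed_of_same {v w : MM} (h : Same v w) : ∃ γ : Gam, γ • w = act (rf3 v) w := by
  obtain ⟨h1, h2, h3⟩ := h
  refine ⟨1, Prod.ext ?_ (Prod.ext ?_ ?_)⟩
  · exact (rf_of_par h1).symm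
  · exact (rf_of_par h2).symm
  · have := (rf_of_par h3).symm
    show rot (sg (1 * 1)) w.2.2 = _
    rw [mul_one]; exact this

lemma fixed_of_diff {v w : MM} (h : Diff v w) : ∃ γ : Gam, γ • w = act (rf3 v) w := by
  rcases h with ⟨h1, h2, h3⟩ | ⟨h1, h2, h3⟩ | ⟨h1, h2, h3⟩
  · refine ⟨((1, -1) : ℤˣ × ℤˣ), Prod.ext (rf_of_par h1).symm (Prod.ext (rf_of_perp h2).symm ?_)⟩
    show rot (sg (1 * (-1))) w.2.2 = _
    rw [one_mul]; exact (rf_of_perp h3).symm
  · refine ⟨((-1, 1) : ℤˣ × ℤˣ), Prod.ext (rf_of_perp h1).symm (Prod.ext (rf_of_par h2).symm ?_)⟩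
    show rot (sg ((-1) * 1)) w.2.2 = _
    rw [mul_one]; exact (rf_of_perp h3).symm
  · refine ⟨((-1, -1) : ℤˣ × ℤˣ), Prod.ext (rf_of_perp h1).symm
      (Prod.ext (rf_of_perp h2).symm ?_)⟩
    show rot (sg ((-1) * (-1))) w.2.2 = _
    rw [Int.units_mul_self]; exact (rf_of_par h3).symm

/-- the other point of `N` with the same components up to sign -/
def flip (v : MM) : MM := (rot (sg (-1)) v.1, (v.2.1, v.2.2))

section Model

variable {N : Type} [MetricSpace N] {p : MM → N} (hp : IsModel N p)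

include hp

lemma same_cases {v w : MM} (h : Same v w) : p w = p v ∨ p w = p (flip v) := by
  obtain ⟨⟨ε, h1⟩, ⟨δ, h2⟩, ⟨κ, h3⟩⟩ := h
  by_cases hk : κ = ε * δ
  · left
    symm
    rw [hp.fib]
    refine ⟨((ε, δ) : ℤˣ × ℤˣ), Prod.ext h1.symm (Prod.ext h2.symm ?_)⟩
    show rot (sg (ε * δ)) v.2.2 = _
    rw [h3, hk]
  · right
    symm
    rw [hp.fib]
    have hk' : κ = (-ε) * δ := by
      rcases Int.units_eq_one_or κ with rfl | rfl <;> rcases Int.units_eq_one_or ε with rfl | rfl <;>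
        rcases Int.units_eq_one_or δ with rfl | rfl <;> simp_all
    refine ⟨((-ε, δ) : ℤˣ × ℤˣ), Prod.ext ?_ (Prod.ext h2.symm ?_)⟩
    · show rot (sg (-ε)) (rot (sg (-1)) v.1) = w.1
      rw [← rot_sg_mul, h1]; simp
    · show rot (sg ((-ε) * δ)) v.2.2 = _
      rw [h3, hk']

lemma flip_ne (v : MM) : p (flip v) ≠ p v := by
  intro h
  rw [hp.fib] at h
  obtain ⟨γ, hγ⟩ := h
  have h1 : rot (sg γ.1) (rot (sg (-1)) v.1) = v.1 := congrArg Prod.fst hγ
  have h2 : rot (sg γ.2) v.2.1 = v.2.1 := congrArg (fun q : MM => q.2.1) hγ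
  have h3 : rot (sg (γ.1 * γ.2)) v.2.2 = v.2.2 := congrArg (fun q : MM => q.2.2) hγ
  rw [← rot_sg_mul] at h1
  have e1 := rot_sg_eq h1
  have e2 := rot_sg_eq h2
  have e3 := rot_sg_eq h3
  rw [e2, mul_one] at e3
  rw [e3] at e1
  simp at e1

lemma same_of_eq {v w : MM} (h : p v = p w) : Same v w := by
  rw [hp.fib] at h
  obtain ⟨γ, rfl⟩ := h
  exact ⟨⟨_, rfl⟩, ⟨_, rfl⟩, ⟨_, rfl⟩⟩

lemma isSymmetryAt (v : MM) (s : N ≃ᵢ N) (hs : ∀ x, s (p x) = p (act (rf3 v) x)) :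
    IsSymmetryAt (p v) s := by
  refine ⟨?_, ?_, ?_⟩
  · intro y
    obtain ⟨x, rfl⟩ := hp.surj y
    rw [hs, hs]
    congr 1
    exact Prod.ext (rf_rf _ _) (Prod.ext (rf_rf _ _) (rf_rf _ _))
  · rw [hs]
    congr 1
    exact Prod.ext (rf_self _) (Prod.ext (rf_self _) (rf_self _))
  · set K : Set MM := {w | ⟪(v.1 : V), (w.1 : V)⟫ = 0 ∨ ⟪(v.2.1 : V), (w.2.1 : V)⟫ = 0 ∨
      ⟪(v.2.2 : V), (w.2.2 : V)⟫ = 0} with hK
    have hKc : IsClosed K := by
      refine IsClosed.union ?_ (IsClosed.union ?_ ?_)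
      · exact isClosed_eq (by fun_prop) continuous_const
      · exact isClosed_eq (by fun_prop) continuous_const
      · exact isClosed_eq (by fun_prop) continuous_const
    have hK2 : IsClosed (p '' K ∪ {p (flip v)}) :=
      ((hKc.isCompact.image hp.cont).isClosed).union isClosed_singleton
    have hv : p v ∈ (p '' K ∪ {p (flip v)})ᶜ := by
      rintro (⟨w, hw, hwv⟩ | h)
      · obtain ⟨h1, h2, h3⟩ := same_of_eq hp hwv.symm
        rcases hw with h | h | h
        · exact not_perp_of_par h1 h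
        · exact not_perp_of_par h2 h
        · exact not_perp_of_par h3 h
      · exact flip_ne hp v h.symm
    obtain ⟨ε, hε, hball⟩ := Metric.isOpen_iff.1 hK2.isOpen_compl _ hv
    refine ⟨ε, hε, fun y hy hsy => ?_⟩
    obtain ⟨w, rfl⟩ := hp.surj y
    have hw := hball (Metric.mem_ball.2 hy)
    rw [hs, eq_comm, hp.fib] at hsy
    obtain ⟨γ, hγ⟩ := hsy
    rcases fixed_cases hγ with h | h
    · rcases same_cases hp h with h1 | h1
      · exact h1
      · exact absurd (Or.inr h1) hw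
    · exfalso
      apply hw
      left
      refine ⟨w, ?_, rfl⟩
      rcases h with ⟨h1, h2, h3⟩ | ⟨h1, h2, h3⟩ | ⟨h1, h2, h3⟩
      · exact Or.inr (Or.inl h2)
      · exact Or.inl h1
      · exact Or.inl h1

theorem isSymmetric : IsSymmetric N := by
  intro x
  obtain ⟨v, rfl⟩ := hp.surj x
  obtain ⟨s, hs⟩ := hp.iso (rf3 v)
  exact ⟨s, isSymmetryAt hp v s hs⟩

variable {E : Type} [NormedAddCommGroup E] [NormedSpace ℝ E] {R : ℝ} (G : Geo N E R)
  [PreconnectedSpace N]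

include G

lemma antipodal_cases {A : Set N} (hA : IsAntipodal A) {v w : MM} (hv : p v ∈ A) (hw : p w ∈ A) :
    Same v w ∨ Diff v w := by
  obtain ⟨s, hs, hsw⟩ := hA _ hv _ hw
  obtain ⟨s', hs'⟩ := hp.iso (rf3 v)
  have h1 := G.symm_unique hs (isSymmetryAt hp v s' hs') (p w)
  rw [hsw, hs', hp.fib] at h1
  obtain ⟨γ, hγ⟩ := h1
  exact fixed_cases hγ

end Model

end Pool.Agent.Helper760_TN
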