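import Pool.Agent.Helper760_TN.Sym

/-! The two-number of the quotient is at most 8. -/

set_option autoImplicit false

open scoped Topology RealInnerProductSpace
open Set Filter Module
open Pool.Agent.Helper381

noncomputable section

namespace Pool.Agent.Helper760_TN

/-- five pairwise orthogonal points of `S³` do not exist -/
lemma no_five (f : Fin 5 → S) (h : ∀ i j, i ≠ j → Perp (f i) (f j)) : False := by
  have ho : Orthonormal ℝ (fun i => (f i : V)) := by
    refine ⟨fun i => norm_S _, fun i j hij => h i j hij⟩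
  have h1 := ho.linearIndependent.fintype_card_le_finrank
  simp at h1

lemma diff_not_same {v w : MM} (h : Diff v w) : ¬ Same v w := by
  rintro ⟨h1, h2, h3⟩
  rcases h with ⟨a1, a2, a3⟩ | ⟨a1, a2, a3⟩ | ⟨a1, a2, a3⟩
  · exact not_perp_of_par h2 a2
  · exact not_perp_of_par h1 a1
  · exact not_perp_of_par h1 a1

/-- the components -/
def cp (i : Fin 3) (v : MM) : S := ![v.1, v.2.1, v.2.2] i

lemma diff_color {v w : MM} (h : Diff v w) :
    ∃ a : Fin 3, Par (cp a v) (cp a w) ∧ ∀ b, b ≠ a → Perp (cp b v) (cp b w) := by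
  rcases h with ⟨a1, a2, a3⟩ | ⟨a1, a2, a3⟩ | ⟨a1, a2, a3⟩
  · refine ⟨0, a1, fun b hb => ?_⟩
    fin_cases b
    · exact absurd rfl hb
    · exact a2
    · exact a3
  · refine ⟨1, a2, fun b hb => ?_⟩
    fin_cases b
    · exact a1
    · exact absurd rfl hb
    · exact a3
  · refine ⟨2, a3, fun b hb => ?_⟩
    fin_cases b
    · exact a1
    · exact a2
    · exact absurd rfl hb

/-- three colors different from `a` are not pairwise distinct -/
lemma fin3_pigeon (a x y z : Fin 3) (hx : x ≠ a) (hy : y ≠ a) (hz : z ≠ a) :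
    x = y ∨ x = z ∨ y = z := by
  revert a x y z; decide

lemma fin3_pigeon4 (x : Fin 4 → Fin 3) : ∃ i j, i ≠ j ∧ x i = x j := by
  by_contra h
  push Not at h
  have hinj : Function.Injective x := by
    intro i j hij
    by_contra hne
    exact h i j hne hij
  have := Fintype.card_le_of_injective x hinj
  simp at this

/-- there are no five points with pairwise exactly one equal line and two orthogonal lines -/
lemma no_five_diff (f : Fin 5 → MM) (h : ∀ i j, i ≠ j → Diff (f i) (f j)) : False := by
  have h1 : ∀ i j, ∃ a : Fin 3, i ≠ j → (Par (cp a (f i)) (cp a (f j)) ∧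
      ∀ b, b ≠ a → Perp (cp b (f i)) (cp b (f j))) := by
    intro i j
    by_cases hij : i = j
    · exact ⟨0, fun hne => absurd hij hne⟩
    · obtain ⟨a, ha⟩ := diff_color (h i j hij)
      exact ⟨a, fun _ => ha⟩
  choose c hc using h1
  -- characterization of the colour
  have hc' : ∀ i j, i ≠ j → ∀ a, Par (cp a (f i)) (cp a (f j)) → c i j = a := by
    intro i j hij a ha
    by_contra hne
    exact not_perp_of_par ha ((hc i j hij).2 a (Ne.symm hne))
  have hsymm : ∀ i j, i ≠ j → c i j = c j i := by
    intro i j hij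
    exact hc' i j hij _ (hc j i (Ne.symm hij)).1.symm
  have htrans : ∀ i j k, i ≠ j → j ≠ k → i ≠ k → c i j = c j k → c i k = c i j := by
    intro i j k hij hjk hik he
    refine hc' i k hik _ ((hc i j hij).1.trans ?_)
    rw [he]
    exact (hc j k hjk).1
  -- if two neighbours of 0 have the same colour, every neighbour has it
  have key : ∀ x y z : Fin 5, x ≠ 0 → y ≠ 0 → x ≠ y → c 0 x = c 0 y → z ≠ 0 → c 0 z = c 0 x := by
    intro x y z hx hy hxy he hz
    by_contra hne
    have hzx : z ≠ x := fun hh => hne (by rw [hh])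
    have hzy : z ≠ y := fun hh => hne (by rw [hh, he])
    set a := c 0 x with ha
    have e0 : c z 0 ≠ a := by rw [hsymm z 0 hz]; exact hne
    have e1 : c z x ≠ a := by
      intro hh
      apply hne
      have := htrans 0 x z (Ne.symm hx) (Ne.symm hzx) (Ne.symm hz)
        (by rw [hsymm x z (Ne.symm hzx), hh])
      rw [this]
    have e2 : c z y ≠ a := by
      intro hh
      apply hne
      have := htrans 0 y z (Ne.symm hy) (Ne.symm hzy) (Ne.symm hz)
        (by rw [hsymm y z (Ne.symm hzy), hh, he])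
      rw [this, he]
    have hxya : c x y = a := by
      have := htrans x 0 y hx (Ne.symm hy) hxy (by rw [hsymm x 0 hx, ← ha, he])
      rw [this, hsymm x 0 hx]
    rcases fin3_pigeon a _ _ _ e0 e1 e2 with hh | hh | hh
    · -- c z 0 = c z x
      have := htrans 0 z x (Ne.symm hz) hzx (Ne.symm hx) (by rw [hsymm 0 z (Ne.symm hz), hh])
      rw [hsymm 0 z (Ne.symm hz)] at this
      exact e0 this.symm
    · have := htrans 0 z y (Ne.symm hz) hzy (Ne.symm hy) (by rw [hsymm 0 z (Ne.symm hz), hh])
      rw [hsymm 0 z (Ne.symm hz), ← he] at this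
      exact e0 this.symm
    · have := htrans x z y (Ne.symm hzx) hzy hxy (by rw [hsymm x z (Ne.symm hzx), hh])
      rw [hsymm x z (Ne.symm hzx), hxya] at this
      exact e1 this.symm
  obtain ⟨i, j, hij, hcol⟩ := fin3_pigeon4 (fun i => c 0 i.succ)
  have hi0 : i.succ ≠ 0 := Fin.succ_ne_zero i
  have hj0 : j.succ ≠ 0 := Fin.succ_ne_zero j
  have hij' : i.succ ≠ j.succ := fun hh => hij (Fin.succ_injective _ hh)
  set a := c 0 i.succ with ha
  have hall0 : ∀ z, z ≠ 0 → c 0 z = a := fun z hz => key i.succ j.succ z hi0 hj0 hij' hcol hz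
  have hall : ∀ x y, x ≠ y → c x y = a := by
    intro x y hxy
    by_cases hx : x = 0
    · rw [hx]; exact hall0 y (fun hh => hxy (by rw [hx, hh]))
    by_cases hy : y = 0
    · rw [hsymm x y hxy, hy]; exact hall0 x hx
    have := htrans x 0 y hx (Ne.symm hy) hxy (by rw [hsymm x 0 hx, hall0 x hx, hall0 y hy])
    rw [this, hsymm x 0 hx, hall0 x hx]
  obtain ⟨b, hb⟩ : ∃ b : Fin 3, b ≠ a := exists_ne a
  exact no_five (fun i => cp b (f i)) (fun i j hij => (hc i j hij).2 b (by rw [hall i j hij]; exact hb))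

/-- the lines of a point -/
def sameSetoid : Setoid MM where
  r := Same
  iseqv := ⟨fun _ => ⟨Par.refl _, Par.refl _, Par.refl _⟩,
    fun h => ⟨h.1.symm, h.2.1.symm, h.2.2.symm⟩,
    fun h h' => ⟨h.1.trans h'.1, h.2.1.trans h'.2.1, h.2.2.trans h'.2.2⟩⟩

section Model

variable {N : Type} [MetricSpace N] {p : MM → N} (hp : IsModel N p)
  {E : Type} [NormedAddCommGroup E] [NormedSpace ℝ E] {R : ℝ} (G : Geo N E R)
  [PreconnectedSpace N]

include hp G

theorem antipodal_card_le {A : Set N} (hA : IsAntipodal A) : A.encard ≤ 8 := by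
  classical
  by_contra hcon
  push Not at hcon
  have h9 : (9 : ℕ∞) ≤ A.encard := by
    have := Order.add_one_le_of_lt hcon
    exact this
  obtain ⟨A', hA', hcard⟩ := Set.exists_subset_encard_eq h9
  have hfin : A'.Finite := Set.finite_of_encard_eq_coe (k := 9) hcard
  set F : Finset N := hfin.toFinset with hF
  have hFc : F.card = 9 := by
    rw [hfin.encard_eq_coe_toFinset_card] at hcard
    exact_mod_cast hcard
  have hFA : ∀ x ∈ F, x ∈ A := fun x hx => hA' (hfin.mem_toFinset.1 hx)
  let r : N → MM := Function.surjInv hp.surj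
  have hr : ∀ x, p (r x) = x := Function.surjInv_eq hp.surj
  let ℓ : N → Quotient sameSetoid := fun x => Quotient.mk _ (r x)
  have hℓ : ∀ x y, ℓ x = ℓ y ↔ Same (r x) (r y) := fun x y => Quotient.eq
  have hrel : ∀ x ∈ F, ∀ y ∈ F, Same (r x) (r y) ∨ Diff (r x) (r y) := by
    intro x hx y hy
    apply antipodal_cases hp G hA
    · rw [hr]; exact hFA x hx
    · rw [hr]; exact hFA y hy
  -- the image has at least five elements
  have him : 5 ≤ (F.image ℓ).card := by
    by_contra hlt
    push Not at hlt
    have hmul : (F.image ℓ).card * 2 < F.card := by omega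
    obtain ⟨q, hq, hq2⟩ := Finset.exists_lt_card_fiber_of_mul_lt_card_of_maps_to
      (f := ℓ) (fun x hx => Finset.mem_image_of_mem ℓ hx) hmul
    obtain ⟨x, y, z, hx, hy, hz, hxy, hxz, hyz⟩ := Finset.two_lt_card_iff.1 hq2
    rw [Finset.mem_filter] at hx hy hz
    have s1 : Same (r x) (r y) := (hℓ x y).1 (hx.2.trans hy.2.symm)
    have s2 : Same (r x) (r z) := (hℓ x z).1 (hx.2.trans hz.2.symm)
    have t1 := same_cases hp s1
    have t2 := same_cases hp s2
    rw [hr, hr] at t1 t2
    rcases t1 with t1 | t1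
    · exact hxy t1.symm
    · rcases t2 with t2 | t2
      · exact hxz t2.symm
      · exact hyz (t1.trans t2.symm)
  obtain ⟨B, hB, hBc⟩ := Finset.exists_subset_card_eq him
  -- choose five points
  let e : Fin 5 ≃ B := (Fintype.equivFinOfCardEq (by rw [Fintype.card_coe, hBc])).symm
  have hpre : ∀ b : B, ∃ x ∈ F, ℓ x = b := fun b => Finset.mem_image.1 (hB b.2)
  choose g hgF hgℓ using hpre
  apply no_five_diff (fun i => r (g (e i)))
  intro i j hij
  rcases hrel _ (hgF (e i)) _ (hgF (e j)) with h | h
  · exfalso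
    apply hij
    apply e.injective
    apply Subtype.ext
    rw [← hgℓ, ← hgℓ, hℓ]
    exact h
  · exact h

theorem twoNumber_le : twoNumber N ≤ 8 := by
  apply iSup_le
  rintro ⟨A, hA⟩
  exact antipodal_card_le hp G hA

end Model

end Pool.Agent.Helper760_TN
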